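import Mathlib

namespace Pool.Agent.MP_582e6d_pr

/-- The two players of the next game: father-mother, father-son, mother-son. -/
inductive Pairing
  | FM
  | FS
  | MS

/-- `winProb a b c X i j k` is the probability that the father wins the tournament when the next
game is `X` and father, mother, son still need `i`, `j`, `k` game wins. The winner of a game next
plays the player who sat out; `a, b, c` are the probabilities that F beats M, F beats S,
M beats S. -/
noncomputable def winProb (a b c : ℝ) : Pairing → ℕ → ℕ → ℕ → ℝ
  | _, 0, _, _ => 1
  | _, _ + 1, 0, _ => 0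
  | _, _ + 1, _ + 1, 0 => 0
  | Pairing.FM, i + 1, j + 1, k + 1 =>
      a * winProb a b c Pairing.FS i (j + 1) (k + 1)
        + (1 - a) * winProb a b c Pairing.MS (i + 1) j (k + 1)
  | Pairing.FS, i + 1, j + 1, k + 1 =>
      b * winProb a b c Pairing.FM i (j + 1) (k + 1)
        + (1 - b) * winProb a b c Pairing.MS (i + 1) (j + 1) k
  | Pairing.MS, i + 1, j + 1, k + 1 =>
      c * winProb a b c Pairing.FM (i + 1) j (k + 1)
        + (1 - c) * winProb a b c Pairing.FS (i + 1) (j + 1) k
termination_by _ i j k => i + j + k

end Pool.Agent.MP_582e6d_pr
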