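import Pool.Agent.MP_582e6d_pr.Defs

/-! Generating function `1 / (1 - p t^2 - A x^2 - B y^2 - q t x y)` and the closed forms. -/

open Finset

namespace Pool.Agent.MP_582e6d_pr

/-- Coefficient of `t^(i-1) x^(j-1) y^(k-1)`, zero if an index is zero. -/
noncomputable def gam (p A B q : ℝ) (i j k : ℕ) : ℝ :=
  if i = 0 ∨ j = 0 ∨ k = 0 then 0 else
    (if i = 1 ∧ j = 1 ∧ k = 1 then 1 else 0) + p * gam p A B q (i - 2) j k
      + A * gam p A B q i (j - 2) k + B * gam p A B q i j (k - 2)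
      + q * gam p A B q (i - 1) (j - 1) (k - 1)
termination_by i + j + k
decreasing_by all_goals omega

variable {p A B q : ℝ}

lemma gam_zero {i j k : ℕ} (h : i = 0 ∨ j = 0 ∨ k = 0) : gam p A B q i j k = 0 := by
  rw [gam, if_pos h]

lemma gam_rec (i j k : ℕ) : gam p A B q i j k =
    (if i = 1 ∧ j = 1 ∧ k = 1 then 1 else 0) + p * gam p A B q (i - 2) j k
      + A * gam p A B q i (j - 2) k + B * gam p A B q i j (k - 2)
      + q * gam p A B q (i - 1) (j - 1) (k - 1) := by
  by_cases h : i = 0 ∨ j = 0 ∨ k = 0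
  · rw [gam_zero h, gam_zero (i := i - 2) (by omega), gam_zero (j := j - 2) (by omega),
      gam_zero (k := k - 2) (by omega), gam_zero (k := k - 1) (by omega), if_neg (by omega)]
    simp
  · rw [gam, if_neg h]

lemma gam_nonneg (hp : 0 ≤ p) (hA : 0 ≤ A) (hB : 0 ≤ B) (hq : 0 ≤ q) (i j k : ℕ) :
    0 ≤ gam p A B q i j k := by
  induction h : i + j + k using Nat.strong_induction_on generalizing i j k with
  | _ n ih =>
    by_cases h0 : i = 0 ∨ j = 0 ∨ k = 0
    · rw [gam_zero h0]
    · rw [gam_rec]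
      have h1 := ih _ (by omega) (i - 2) j k rfl
      have h2 := ih _ (by omega) i (j - 2) k rfl
      have h3 := ih _ (by omega) i j (k - 2) rfl
      have h4 := ih _ (by omega) (i - 1) (j - 1) (k - 1) rfl
      have h5 : (0 : ℝ) ≤ if i = 1 ∧ j = 1 ∧ k = 1 then 1 else 0 := by split_ifs <;> norm_num
      positivity

lemma gam_parity (i j k : ℕ) (hpar : i % 2 ≠ j % 2 ∨ i % 2 ≠ k % 2) : gam p A B q i j k = 0 := by
  induction h : i + j + k using Nat.strong_induction_on generalizing i j k with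
  | _ n ih =>
    by_cases h0 : i = 0 ∨ j = 0 ∨ k = 0
    · rw [gam_zero h0]
    · rw [gam_rec, if_neg (by omega)]
      have h1 : gam p A B q (i - 2) j k = 0 := by
        by_cases e : i - 2 = 0
        · exact gam_zero (Or.inl e)
        · exact ih _ (by omega) _ _ _ (by omega) rfl
      have h2 : gam p A B q i (j - 2) k = 0 := by
        by_cases e : j - 2 = 0
        · exact gam_zero (Or.inr (Or.inl e))
        · exact ih _ (by omega) _ _ _ (by omega) rfl
      have h3 : gam p A B q i j (k - 2) = 0 := by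
        by_cases e : k - 2 = 0
        · exact gam_zero (Or.inr (Or.inr e))
        · exact ih _ (by omega) _ _ _ (by omega) rfl
      have h4 : gam p A B q (i - 1) (j - 1) (k - 1) = 0 :=
        ih _ (by omega) _ _ _ (by omega) rfl
      rw [h1, h2, h3, h4]; simp

lemma gam_symm (α β : ℝ) (i j k : ℕ) :
    β ^ j * α ^ k * gam p (α ^ 2) (β ^ 2) q i j k = β ^ k * α ^ j * gam p (α ^ 2) (β ^ 2) q i k j := by
  induction h : i + j + k using Nat.strong_induction_on generalizing i j k with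
  | _ n ih =>
    by_cases h0 : i = 0 ∨ j = 0 ∨ k = 0
    · rw [gam_zero h0, gam_zero (by omega)]; simp
    · have h1 := ih _ (by omega) (i - 2) j k rfl
      have h2 : β ^ j * α ^ k * (α ^ 2 * gam p (α ^ 2) (β ^ 2) q i (j - 2) k) =
          β ^ k * α ^ j * (β ^ 2 * gam p (α ^ 2) (β ^ 2) q i k (j - 2)) := by
        by_cases e : j - 2 = 0
        · rw [gam_zero (Or.inr (Or.inl e)), gam_zero (Or.inr (Or.inr e))]; simp
        · obtain ⟨j', rfl⟩ : ∃ j', j = j' + 2 := ⟨j - 2, by omega⟩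
          have := ih _ (by omega) i j' k rfl
          simp only [Nat.add_sub_cancel]
          linear_combination α ^ 2 * β ^ 2 * this
      have h3 : β ^ j * α ^ k * (β ^ 2 * gam p (α ^ 2) (β ^ 2) q i j (k - 2)) =
          β ^ k * α ^ j * (α ^ 2 * gam p (α ^ 2) (β ^ 2) q i (k - 2) j) := by
        by_cases e : k - 2 = 0
        · rw [gam_zero (Or.inr (Or.inr e)), gam_zero (Or.inr (Or.inl e))]; simp
        · obtain ⟨k', rfl⟩ : ∃ k', k = k' + 2 := ⟨k - 2, by omega⟩
          have := ih _ (by omega) i j k' rfl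
          simp only [Nat.add_sub_cancel]
          linear_combination α ^ 2 * β ^ 2 * this
      have h4 : β ^ j * α ^ k * gam p (α ^ 2) (β ^ 2) q (i - 1) (j - 1) (k - 1) =
          β ^ k * α ^ j * gam p (α ^ 2) (β ^ 2) q (i - 1) (k - 1) (j - 1) := by
        obtain ⟨j', rfl⟩ : ∃ j', j = j' + 1 := ⟨j - 1, by omega⟩
        obtain ⟨k', rfl⟩ : ∃ k', k = k' + 1 := ⟨k - 1, by omega⟩
        have := ih _ (by omega) (i - 1) j' k' rfl
        simp only [Nat.add_sub_cancel]
        linear_combination α * β * this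
      have h5 : β ^ j * α ^ k * (if i = 1 ∧ j = 1 ∧ k = 1 then (1 : ℝ) else 0) =
          β ^ k * α ^ j * (if i = 1 ∧ k = 1 ∧ j = 1 then (1 : ℝ) else 0) := by
        by_cases e : i = 1 ∧ j = 1 ∧ k = 1
        · obtain ⟨rfl, rfl, rfl⟩ := e; simp
        · rw [if_neg e, if_neg (by tauto)]; simp
      rw [gam_rec i j k, gam_rec i k j]
      linear_combination h5 + p * h1 + h2 + h3 + q * h4

lemma gam_compare (hp : 0 ≤ p) (hA : 0 < A) (hAB : A ≤ B) (hq : 0 ≤ q) (i j k : ℕ)
    (hjk : k + 2 ≤ j) : B * gam p A B q i j k ≤ A * gam p A B q i k j := by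
  have hB : 0 < B := lt_of_lt_of_le hA hAB
  obtain ⟨α, hα, rfl⟩ : ∃ α : ℝ, 0 < α ∧ A = α ^ 2 :=
    ⟨√A, Real.sqrt_pos.2 hA, (Real.sq_sqrt hA.le).symm⟩
  obtain ⟨β, hβ, rfl⟩ : ∃ β : ℝ, 0 < β ∧ B = β ^ 2 :=
    ⟨√B, Real.sqrt_pos.2 hB, (Real.sq_sqrt hB.le).symm⟩
  have hαβ : α ≤ β := (abs_le_of_sq_le_sq' hAB hβ.le).2
  obtain ⟨d, rfl⟩ : ∃ d, j = k + 2 + d := ⟨j - (k + 2), by omega⟩
  have hs := gam_symm (p := p) (q := q) α β i (k + 2 + d) k
  have h0 := gam_nonneg hp hA.le hB.le hq i k (k + 2 + d)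
  have hd : α ^ d ≤ β ^ d := pow_le_pow_left₀ hα.le hαβ d
  have hpos : 0 < β ^ k * α ^ k * β ^ d := by positivity
  apply le_of_mul_le_mul_left _ hpos
  have e1 : β ^ k * α ^ k * β ^ d * (β ^ 2 * gam p (α ^ 2) (β ^ 2) q i (k + 2 + d) k) =
      β ^ k * α ^ k * α ^ 2 * gam p (α ^ 2) (β ^ 2) q i k (k + 2 + d) * α ^ d := by
    linear_combination hs
  rw [e1]
  have e2 : β ^ k * α ^ k * β ^ d * (α ^ 2 * gam p (α ^ 2) (β ^ 2) q i k (k + 2 + d)) =
      β ^ k * α ^ k * α ^ 2 * gam p (α ^ 2) (β ^ 2) q i k (k + 2 + d) * β ^ d := by ring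
  rw [e2]
  exact mul_le_mul_of_nonneg_left hd (by positivity)

/-- Cumulated coefficients. -/
noncomputable def GG (p A B q : ℝ) (i j k : ℕ) : ℝ :=
  ∑ x ∈ range (j + 1), ∑ y ∈ range (k + 1), gam p A B q i x y

lemma sum_shift (f : ℕ → ℝ) (hf : f 0 = 0) (j d : ℕ) :
    ∑ x ∈ range (j + 1), f (x - d) = ∑ x ∈ range (j - d + 1), f x := by
  induction j with
  | zero => simp
  | succ j ih =>
    rw [sum_range_succ, ih]
    by_cases h : d ≤ j
    · rw [show j + 1 - d = j - d + 1 by omega, sum_range_succ _ (j - d + 1)]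
    · rw [show j + 1 - d = 0 by omega, show j - d = 0 by omega, hf]; simp

lemma GG_zero {i j k : ℕ} (h : i = 0 ∨ j = 0 ∨ k = 0) : GG p A B q i j k = 0 := by
  unfold GG
  refine sum_eq_zero fun x hx => sum_eq_zero fun y hy => gam_zero ?_
  rw [mem_range] at hx hy
  omega

lemma GG_rec (i j k : ℕ) (hj : 0 < j) (hk : 0 < k) : GG p A B q i j k =
    (if i = 1 then 1 else 0) + p * GG p A B q (i - 2) j k
      + A * GG p A B q i (j - 2) k + B * GG p A B q i j (k - 2)
      + q * GG p A B q (i - 1) (j - 1) (k - 1) := by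
  have e0 : ∑ x ∈ range (j + 1), ∑ y ∈ range (k + 1),
      (if i = 1 ∧ x = 1 ∧ y = 1 then (1 : ℝ) else 0) = if i = 1 then 1 else 0 := by
    by_cases hi : i = 1
    · rw [sum_eq_single 1, sum_eq_single 1]
      · simp [hi]
      · intro y _ hy; simp [hy]
      · intro h; exact absurd (mem_range.2 (by omega)) h
      · intro x _ hx; simp [hx]
      · intro h; exact absurd (mem_range.2 (by omega)) h
    · simp [hi]
  have e1 : ∑ x ∈ range (j + 1), ∑ y ∈ range (k + 1), gam p A B q i (x - 2) y =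
      GG p A B q i (j - 2) k :=
    sum_shift (fun x => ∑ y ∈ range (k + 1), gam p A B q i x y)
      (sum_eq_zero fun y _ => gam_zero (by simp)) j 2
  have e2 : ∑ x ∈ range (j + 1), ∑ y ∈ range (k + 1), gam p A B q i x (y - 2) =
      GG p A B q i j (k - 2) :=
    sum_congr rfl fun x _ => sum_shift (fun y => gam p A B q i x y) (gam_zero (by simp)) k 2
  have e3 : ∑ x ∈ range (j + 1), ∑ y ∈ range (k + 1), gam p A B q (i - 1) (x - 1) (y - 1) =
      GG p A B q (i - 1) (j - 1) (k - 1) := by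
    rw [sum_congr rfl fun x _ => sum_shift (fun y => gam p A B q (i - 1) (x - 1) y)
      (gam_zero (by simp)) k 1]
    exact sum_shift (fun x => ∑ y ∈ range (k - 1 + 1), gam p A B q (i - 1) x y)
      (sum_eq_zero fun y _ => gam_zero (by simp)) j 1
  rw [← e0, ← e1, ← e2, ← e3]
  unfold GG
  simp only [mul_sum, ← sum_add_distrib]
  exact sum_congr rfl fun x _ => sum_congr rfl fun y _ => gam_rec i x y

lemma GG_succ_j (i j k : ℕ) : GG p A B q i (j + 1) k =
    GG p A B q i j k + ∑ y ∈ range (k + 1), gam p A B q i (j + 1) y := by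
  unfold GG; rw [sum_range_succ]

lemma GG_succ_k (i j k : ℕ) : GG p A B q i j (k + 1) =
    GG p A B q i j k + ∑ x ∈ range (j + 1), gam p A B q i x (k + 1) := by
  unfold GG
  rw [← sum_add_distrib]
  exact sum_congr rfl fun x _ => sum_range_succ _ _

lemma GG_par_j (i j k : ℕ) (h : i % 2 ≠ (j + 1) % 2) :
    GG p A B q i (j + 1) k = GG p A B q i j k := by
  rw [GG_succ_j, sum_eq_zero fun y _ => gam_parity _ _ _ (Or.inl h), add_zero]

lemma GG_par_k (i j k : ℕ) (h : i % 2 ≠ (k + 1) % 2) :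
    GG p A B q i j (k + 1) = GG p A B q i j k := by
  rw [GG_succ_k, sum_eq_zero fun y _ => gam_parity _ _ _ (Or.inr h), add_zero]

/-- The cumulated coefficients for the tournament. -/
noncomputable def G (a b c : ℝ) : ℕ → ℕ → ℕ → ℝ :=
  GG (a * b) (c * (1 - a)) ((1 - c) * (1 - b)) (c * (a * (1 - b)) + (1 - c) * (b * (1 - a)))

lemma closed_form (a b c : ℝ) (i j k : ℕ) :
    winProb a b c .FM (i + 1) j k = a * G a b c (i + 1) j k + a * b * G a b c i j k
        + (1 - c) * (b * (1 - a)) * G a b c (i + 1) (j - 1) (k - 1)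
        - (1 - c) * (a * (1 - b)) * G a b c (i + 1) j (k - 2) ∧
    winProb a b c .FS (i + 1) j k = b * G a b c (i + 1) j k + a * b * G a b c i j k
        + c * (a * (1 - b)) * G a b c (i + 1) (j - 1) (k - 1)
        - c * (b * (1 - a)) * G a b c (i + 1) (j - 2) k ∧
    winProb a b c .MS (i + 1) j k = c * a * G a b c (i + 1) (j - 1) k
        + c * (a * b) * G a b c i (j - 1) k + (1 - c) * b * G a b c (i + 1) j (k - 1)
        + (1 - c) * (a * b) * G a b c i j (k - 1) := by
  induction h : i + j + k using Nat.strong_induction_on generalizing i j k with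
  | _ n ih =>
    rcases j with _ | j
    · simp [winProb, G, GG_zero]
    rcases k with _ | k
    · simp [winProb, G, GG_zero]
    have r := GG_rec (p := a * b) (A := c * (1 - a)) (B := (1 - c) * (1 - b))
      (q := c * (a * (1 - b)) + (1 - c) * (b * (1 - a))) (i + 1) (j + 1) (k + 1)
      (by omega) (by omega)
    have h1 := ih _ (by omega) i j (k + 1) rfl
    have h2 := ih _ (by omega) i (j + 1) k rfl
    simp only [Nat.add_sub_cancel, show ∀ m : ℕ, m + 1 - 2 = m - 1 from fun m => by omega] at *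
    rw [winProb, winProb, winProb, h1.1, h1.2.2, h2.2.1, h2.2.2]
    rcases i with _ | i
    · have z : ∀ j k, G a b c 0 j k = 0 := fun j k => GG_zero (Or.inl rfl)
      simp only [winProb, z]
      simp only [G, zero_add, if_true, Nat.zero_sub, GG_zero (Or.inl rfl)] at r ⊢
      refine ⟨?_, ?_, ?_⟩
      · linear_combination (-a) * r
      · linear_combination (-b) * r
      · ring
    · have h3 := ih _ (by omega) i (j + 1) (k + 1) rfl
      simp only [Nat.add_sub_cancel, show ∀ m : ℕ, m + 1 - 2 = m - 1 from fun m => by omega] at *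
      rw [h3.1, h3.2.1]
      simp only [G, if_neg (show ¬ (i + 1 + 1 = 1) by omega)] at r ⊢
      refine ⟨?_, ?_, ?_⟩
      · linear_combination (-a) * r
      · linear_combination (-b) * r
      · ring

theorem father_optimal (a b c : ℝ) (hb : 0 < b) (hba : b ≤ a) (ha : a < 1) (hc : 0 < c)
    (hc' : c ≤ 1 / 2) (N : ℕ) :
    winProb a b c .FS N N N ≤ winProb a b c .FM N N N ∧
    winProb a b c .MS N N N ≤ winProb a b c .FM N N N := by
  rcases N with _ | n
  · simp [winProb]
  have ha0 : 0 < a := lt_of_lt_of_le hb hba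
  have ha1 : 0 < 1 - a := by linarith
  have hb1 : 0 < 1 - b := by linarith
  have hc1 : 0 < 1 - c := by linarith
  rcases n with _ | n
  · simp only [winProb]
    constructor <;> nlinarith
  obtain ⟨e1, e2, e3⟩ := closed_form a b c (n + 1) (n + 1 + 1) (n + 1 + 1)
  rw [e1, e2, e3]
  simp only [Nat.add_sub_cancel, show ∀ m : ℕ, m + 1 + 1 - 2 = m from fun m => by omega]
  set p := a * b
  set A := c * (1 - a)
  set B := (1 - c) * (1 - b)
  set q := c * (a * (1 - b)) + (1 - c) * (b * (1 - a))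
  have hp : 0 ≤ p := by positivity
  have hA : 0 < A := by positivity
  have hAB : A ≤ B := mul_le_mul (by linarith) (by linarith) ha1.le hc1.le
  have hq : 0 ≤ q := by positivity
  have hG : G a b c = GG p A B q := rfl
  rw [hG]
  set H := GG p A B q (n + 1 + 1) n n with hH
  set P := ∑ y ∈ range (n + 1), gam p A B q (n + 1 + 1) (n + 1 + 1) y with hP
  set Q := ∑ x ∈ range (n + 1), gam p A B q (n + 1 + 1) x (n + 1 + 1) with hQ
  set g := gam p A B q (n + 1 + 1) (n + 1 + 1) (n + 1 + 1) with hg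
  have hH0 : 0 ≤ H := sum_nonneg fun x _ => sum_nonneg fun y _ =>
    gam_nonneg hp hA.le (hA.le.trans hAB) hq _ _ _
  have hP0 : 0 ≤ P := sum_nonneg fun y _ => gam_nonneg hp hA.le (hA.le.trans hAB) hq _ _ _
  have hQ0 : 0 ≤ Q := sum_nonneg fun y _ => gam_nonneg hp hA.le (hA.le.trans hAB) hq _ _ _
  have hg0 : 0 ≤ g := gam_nonneg hp hA.le (hA.le.trans hAB) hq _ _ _
  have hPQ : B * P ≤ A * Q := by
    rw [hP, hQ, mul_sum, mul_sum]
    exact sum_le_sum fun y hy => gam_compare hp hA hAB hq _ _ _ (by rw [mem_range] at hy; omega)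
  have f1 : GG p A B q (n + 1 + 1) (n + 1) n = H := GG_par_j _ _ _ (by omega)
  have f2 : GG p A B q (n + 1 + 1) n (n + 1) = H := GG_par_k _ _ _ (by omega)
  have f3 : GG p A B q (n + 1 + 1) (n + 1) (n + 1) = H := by rw [GG_par_k _ _ _ (by omega), f1]
  have f4 : GG p A B q (n + 1 + 1) (n + 1 + 1) n = H + P := by rw [GG_succ_j, f1]
  have f5 : GG p A B q (n + 1 + 1) n (n + 1 + 1) = H + Q := by rw [GG_succ_k, f2]
  have f6 : GG p A B q (n + 1 + 1) (n + 1 + 1) (n + 1) = H + P := by
    rw [GG_par_k _ _ _ (by omega), f4]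
  have f7 : GG p A B q (n + 1 + 1) (n + 1) (n + 1 + 1) = H + Q := by
    rw [GG_par_j _ _ _ (by omega), f5]
  have f8 : GG p A B q (n + 1 + 1) (n + 1 + 1) (n + 1 + 1) = H + Q + (P + g) := by
    rw [GG_succ_j, f7, sum_range_succ, sum_range_succ,
      gam_parity (n + 1 + 1) (n + 1 + 1) (n + 1) (by omega), add_zero]
  have f9 : GG p A B q (n + 1) (n + 1) (n + 1 + 1) = GG p A B q (n + 1) (n + 1 + 1) (n + 1 + 1) :=
    (GG_par_j _ _ _ (by omega)).symm
  have f10 : GG p A B q (n + 1) (n + 1 + 1) (n + 1) = GG p A B q (n + 1) (n + 1 + 1) (n + 1 + 1) :=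
    (GG_par_k _ _ _ (by omega)).symm
  rw [f3, f4, f5, f6, f7, f8, f9, f10]
  have k1 : (1 - c) * P ≤ c * Q := by
    apply le_of_mul_le_mul_left _ ha1
    have : (1 - c) * (1 - a) * P ≤ B * P :=
      mul_le_mul_of_nonneg_right (mul_le_mul_of_nonneg_left (by linarith) hc1.le) hP0
    have e : A * Q = (1 - a) * (c * Q) := by simp only [A]; ring
    linarith
  have k2 : P ≤ Q := by
    apply le_of_mul_le_mul_left _ hc1
    have : c * Q ≤ (1 - c) * Q := mul_le_mul_of_nonneg_right (by linarith) hQ0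
    linarith
  constructor
  · have t1 : 0 ≤ (a - b) * (c * P + Q + g) :=
      mul_nonneg (by linarith) (by positivity)
    have t2 : 0 ≤ b * (1 - a) * (c * Q - (1 - c) * P) :=
      mul_nonneg (by positivity) (by linarith)
    nlinarith
  · have t1 : 0 ≤ a * (c * P + g) := by positivity
    have t2 : 0 ≤ (1 - c) * (a * Q - b * (1 - a) * P) := by
      apply mul_nonneg hc1.le
      have : b * (1 - a) * P ≤ a * P := mul_le_mul_of_nonneg_right (by nlinarith) hP0
      have : a * P ≤ a * Q := mul_le_mul_of_nonneg_left k2 ha0.le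
      linarith
    nlinarith

end Pool.Agent.MP_582e6d_pr
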